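import Pool.Agent.H68.QC.Targets

/-!
Row ALT of qc_modules: monotonicity and negation of alternating quantifiers.
-/

set_option autoImplicit false

namespace Pool.Agent.H77.QC

open Pool.Agent.H68.QC Pool.Agent.H70.OQ

theorem alt_mono (R : List Bool → Prop) : ∀ (k : ℕ) (b : Bool) (P Q : List (List Bool) → Prop),
    (∀ ws, ws.length = k → (∀ w ∈ ws, R w) → P ws → Q ws) → Alt R b k P → Alt R b k Q := by
  intro k
  induction k with
  | zero =>
    intro b P Q h
    cases b
    · exact h [] rfl (by simp)
    · exact h [] rfl (by simp)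
  | succ k ih =>
    intro b P Q h
    have h1 : ∀ w, R w → ∀ ws, ws.length = k → (∀ w ∈ ws, R w) → P (w :: ws) → Q (w :: ws) := by
      intro w hw ws hl hws
      refine h (w :: ws) (by rw [List.length_cons, hl]) ?_
      intro w' hw'
      rcases List.mem_cons.1 hw' with rfl | hw'
      · exact hw
      · exact hws w' hw'
    cases b
    · intro h2 w hw
      exact ih true _ _ (h1 w hw) (h2 w hw)
    · rintro ⟨w, hw, h2⟩
      exact ⟨w, hw, ih false _ _ (h1 w hw) h2⟩

theorem alt_not (R : List Bool → Prop) : ∀ (k : ℕ) (b : Bool) (P : List (List Bool) → Prop),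
    (¬ Alt R b k P ↔ Alt R (!b) k fun ws => ¬ P ws) := by
  intro k
  induction k with
  | zero =>
    intro b P
    cases b <;> exact Iff.rfl
  | succ k ih =>
    intro b P
    cases b
    · show (¬ ∀ w, R w → Alt R true k fun ws => P (w :: ws)) ↔
        ∃ w, R w ∧ Alt R false k fun ws => ¬ P (w :: ws)
      constructor
      · intro h
        push Not at h
        obtain ⟨w, hw, h1⟩ := h
        exact ⟨w, hw, (ih true fun ws => P (w :: ws)).1 h1⟩
      · rintro ⟨w, hw, h1⟩ h
        exact (ih true fun ws => P (w :: ws)).2 h1 (h w hw)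
    · show (¬ ∃ w, R w ∧ Alt R false k fun ws => P (w :: ws)) ↔
        ∀ w, R w → Alt R true k fun ws => ¬ P (w :: ws)
      constructor
      · intro h w hw
        exact (ih false fun ws => P (w :: ws)).1 fun h1 => h ⟨w, hw, h1⟩
      · rintro h ⟨w, hw, h1⟩
        exact (ih false fun ws => P (w :: ws)).2 (h w hw) h1

theorem pf_ALT : T_ALT := fun R b k P Q => ⟨alt_mono R k b P Q, alt_not R k b P⟩

end Pool.Agent.H77.QC
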