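import Pool.Agent.H95.QC.Targets2
import Pool.Agent.H95.QC.Chain
import Pool.Agent.H9.QC.K12

/-!
# Quasi-critical polymer, modules E1, E2, E3 (energies)
-/

open MeasureTheory ProbabilityTheory Filter Topology Finset
open scoped ENNReal NNReal BigOperators

set_option linter.unusedSectionVars false

namespace Pool.Agent.H77.QC

open Pool.Agent.H95.QC

section General

variable {G : Type*} [Fintype G] [DecidableEq G] [AddCommGroup G]

/-- translation of a vector -/
def tr (z : G) (F : G → ℝ) : G → ℝ := fun x => F (x - z)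

theorem step_tr (st : Fin 4 → G) (z : G) (F : G → ℝ) :
    step st 1 (tr z F) = tr z (step st 1 F) := by
  funext x
  simp only [step, tr, Pi.one_apply, one_mul]
  congr 1
  apply Finset.sum_congr rfl
  intro i _
  congr 1
  abel

theorem iter_tr (st : Fin 4 → G) (z : G) (n : ℕ) (F : G → ℝ) :
    (step st 1)^[n] (tr z F) = tr z ((step st 1)^[n] F) := by
  induction n with
  | zero => rfl
  | succ n ih => rw [Function.iterate_succ_apply', ih, step_tr, Function.iterate_succ_apply']

theorem sum_tr (z : G) (F : G → ℝ) : ∑ x, tr z F x = ∑ x, F x :=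
  Fintype.sum_equiv (Equiv.subRight z) _ _ (fun x => rfl)

theorem sq_tr (z : G) (F : G → ℝ) : H95.QC.sq (tr z F) = H95.QC.sq F := by
  unfold H95.QC.sq
  exact Fintype.sum_equiv (Equiv.subRight z) _ _ (fun x => rfl)

theorem dl_tr (x : G) : dl x = tr x (dl 0) := by
  funext y
  simp only [dl, tr, Pi.single_apply, sub_eq_zero]

theorem qv_tr (st : Fin 4 → G) (s : ℝ) (Q : (G → ℝ) → ℝ) (hQ : ∀ z F, Q (tr z F) = Q F)
    (T : ℕ) : ∀ (z : G) (F : G → ℝ), qv st 1 s Q T (tr z F) = qv st 1 s Q T F := by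
  induction T with
  | zero => intro z F; simp only [qv]; exact hQ z F
  | succ T ih =>
    intro z F
    simp only [qv]
    rw [step_tr, ih]
    congr 2
    have h1 : ∀ x, qv st 1 s Q T (dl x) = qv st 1 s Q T (dl 0) := by
      intro x; rw [dl_tr x, ih]
    simp only [h1]
    exact Fintype.sum_equiv (Equiv.subRight z) _ _ (fun x => rfl)

theorem qv_general (st : Fin 4 → G) (s : ℝ) (Q : (G → ℝ) → ℝ) (hQ : ∀ z F, Q (tr z F) = Q F)
    (T : ℕ) : ∀ F : G → ℝ, qv st 1 s Q T F = Q ((step st 1)^[T] F) +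
      s * ∑ j ∈ Icc 1 T, qv st 1 s Q (T - j) (dl 0) * H95.QC.sq ((step st 1)^[j] F) := by
  induction T with
  | zero => intro F; simp [qv]
  | succ T ih =>
    intro F
    simp only [qv]
    rw [ih (step st 1 F)]
    have h1 : ∀ x, qv st 1 s Q T (dl x) = qv st 1 s Q T (dl 0) := by
      intro x; rw [dl_tr x, qv_tr st s Q hQ]
    simp only [h1]
    rw [sum_Icc_one (fun j => qv st 1 s Q (T + 1 - j) (dl 0) * H95.QC.sq ((step st 1)^[j] F)),
      Finset.sum_range_succ', sum_Icc_one]
    simp only [Function.iterate_succ_apply]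
    have h2 : ∑ x, (step st 1 F x) ^ 2 * qv st 1 s Q T (dl 0) =
        qv st 1 s Q T (dl 0) * H95.QC.sq (step st 1 F) := by
      unfold H95.QC.sq; rw [← Finset.sum_mul, mul_comm]
    rw [h2]
    have h3 : ∀ k ∈ range T, qv st 1 s Q (T + 1 - (k + 1 + 1)) (dl 0) *
        H95.QC.sq ((step st 1)^[k + 1] (step st 1 F)) =
        qv st 1 s Q (T - (k + 1)) (dl 0) * H95.QC.sq ((step st 1)^[k] (step st 1 (step st 1 F))) := by
      intro k hk
      rw [Function.iterate_succ_apply]
      congr 2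
      omega
    have h4 : ∑ k ∈ range T, qv st 1 s Q (T + 1 - (k + 1 + 1)) (dl 0) *
        H95.QC.sq ((step st 1)^[k] (step st 1 (step st 1 F))) =
        ∑ k ∈ range T, qv st 1 s Q (T - (k + 1)) (dl 0) *
          H95.QC.sq ((step st 1)^[k] (step st 1 (step st 1 F))) := by
      apply Finset.sum_congr rfl
      intro k hk
      congr 2
      omega
    simp only [Function.iterate_zero, id_eq, Nat.zero_add, Nat.add_sub_cancel] at h4 ⊢
    rw [h4]
    ring

end General

/-- uniqueness for the renewal equation up to a horizon -/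
theorem conv_sol (s : ℝ) (a y : ℕ → ℝ) (T₀ : ℕ)
    (h : ∀ T ≤ T₀, y T = a T + ∑ p ∈ antidiagonal T, uh s p.1 * y p.2) :
    ∀ T ≤ T₀, y T = ∑ p ∈ antidiagonal T, U s p.1 * a p.2 := by
  set z : ℕ → ℝ := fun T => ∑ p ∈ antidiagonal T, U s p.1 * a p.2 with hz
  have h1 : PowerSeries.mk z = PowerSeries.mk (U s) * PowerSeries.mk a := by
    ext n
    simp only [PowerSeries.coeff_mk, PowerSeries.coeff_mul]
    rfl
  have h2 : PowerSeries.mk (U s) = 1 + PowerSeries.mk (uh s) * PowerSeries.mk (U s) := by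
    ext n
    simp only [map_add, PowerSeries.coeff_mk, PowerSeries.coeff_mul, PowerSeries.coeff_one]
    exact U_conv s n
  have h3 : PowerSeries.mk z = PowerSeries.mk a + PowerSeries.mk (uh s) * PowerSeries.mk z := by
    rw [h1]
    conv_lhs => rw [h2]
    ring
  have h4 : ∀ T, z T = a T + ∑ p ∈ antidiagonal T, uh s p.1 * z p.2 := by
    intro T
    have := congrArg (PowerSeries.coeff T) h3
    simpa only [map_add, PowerSeries.coeff_mk, PowerSeries.coeff_mul] using this
  intro T
  induction T using Nat.strong_induction_on with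
  | _ T ih =>
    intro hT
    change y T = z T
    rw [h T hT, h4 T]
    congr 1
    apply Finset.sum_congr rfl
    rintro ⟨i, j⟩ hp
    have hij : i + j = T := by simpa using hp
    rcases Nat.eq_zero_or_pos i with rfl | hi
    · simp [uh_zero]
    · simp only
      rw [ih j (by omega) (by omega)]

theorem sum_anti (s : ℝ) (y : ℕ → ℝ) (T : ℕ) :
    ∑ p ∈ antidiagonal T, uh s p.1 * y p.2 = s * ∑ j ∈ Icc 1 T, y (T - j) * uZ j := by
  rw [Finset.Nat.sum_antidiagonal_eq_sum_range_succ_mk, Finset.sum_range_succ', sum_Icc_one,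
    Finset.mul_sum]
  simp only [uh_zero, zero_mul, add_zero]
  apply Finset.sum_congr rfl
  intro k _
  rw [uh_pos s (by omega)]
  ring

theorem qv_dl (M : ℕ) [NeZero M] (s : ℝ) (Q : (Tor M → ℝ) → ℝ) (hQ : ∀ z F, Q (tr z F) = Q F)
    (T₀ : ℕ) (hM : 2 * T₀ < M) : ∀ T ≤ T₀, qv (st M) 1 s Q T (dl 0) =
      ∑ p ∈ antidiagonal T, U s p.1 * Q (q M p.2) := by
  apply conv_sol s (fun T => Q (q M T)) (fun T => qv (st M) 1 s Q T (dl 0)) T₀
  intro T hT
  rw [sum_anti s (fun T => qv (st M) 1 s Q T (dl 0)) T]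
  rw [qv_general (st M) s Q hQ T (dl 0)]
  congr 2
  apply Finset.sum_congr rfl
  intro j hj
  rw [Finset.mem_Icc] at hj
  congr 1
  exact Pool.Agent.H9.QC.targetK1 M j (by omega)

theorem targetE1 : TargetE1 := by
  intro M T _ s F hM
  have hQ : ∀ (z : Tor M) (F : Tor M → ℝ), (fun F : Tor M → ℝ => (∑ x, F x) ^ 2) (tr z F) =
      (fun F : Tor M → ℝ => (∑ x, F x) ^ 2) F := by
    intro z F; simp only [sum_tr]
  rw [qv_general (st M) s _ hQ T F]
  simp only [sum_iterate_step]
  congr 2
  apply Finset.sum_congr rfl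
  intro j hj
  congr 1
  rw [qv_dl M s _ hQ T hM (T - j) (Nat.sub_le _ _)]
  simp only [sum_q, one_pow, mul_one]
  rw [Finset.Nat.sum_antidiagonal_eq_sum_range_succ_mk]
  rfl

theorem sum_uZ (T' m : ℕ) : ∑ n ∈ Icc 1 T', uZ (n + m) = Rn (T' + m) - Rn m := by
  induction T' with
  | zero => simp
  | succ T' ih =>
    rw [Finset.sum_Icc_succ_top (by omega), ih]
    have : T' + 1 + m = (T' + m) + 1 := by omega
    rw [this, Rn_succ]
    ring

theorem En_tr (M T' : ℕ) [NeZero M] (z : Tor M) (F : Tor M → ℝ) :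
    En M T' (tr z F) = En M T' F := by
  unfold En
  simp only [iter_tr, sq_tr]

theorem En_q (M T' m : ℕ) [NeZero M] (hM : 2 * (T' + m) < M) :
    En M T' (q M m) = Rn (T' + m) - Rn m := by
  rw [← sum_uZ]
  unfold En
  apply Finset.sum_congr rfl
  intro n hn
  rw [Finset.mem_Icc] at hn
  rw [← q_add, Pool.Agent.H9.QC.targetK1 M (m + n) (by omega), add_comm]

theorem targetE2 : TargetE2 := by
  intro M T T' _ s F hM
  rw [qv_general (st M) s _ (En_tr M T') T F]
  congr 2
  apply Finset.sum_congr rfl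
  intro j hj
  congr 1
  rw [qv_dl M s _ (En_tr M T') T (by omega) (T - j) (Nat.sub_le _ _)]
  unfold Ken
  apply Finset.sum_congr rfl
  rintro ⟨a, b⟩ hp
  have hab : a + b = T - j := by simpa using hp
  rw [En_q M T' b (by omega)]

end Pool.Agent.H77.QC
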