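import Pool.Agent.H95.QC.Targets2
import Pool.Agent.H9.QC.K12

/-!
# Quasi-critical polymer, module E3 (bound of the convolution)
-/

open Finset BigOperators

namespace Pool.Agent.H77.QC

open Pool.Agent.H95.QC

/-- increments of the overlap -/
noncomputable def ww (T' k : ℕ) : ℝ := Rn (T' + k) - Rn k

theorem ww_nonneg (T' k : ℕ) : 0 ≤ ww T' k := by
  unfold ww
  have := Rn_mono (Nat.le_add_left k T')
  linarith

theorem ww_succ (T' k : ℕ) : ww (T' + 1) k = ww T' k + uZ (T' + k + 1) := by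
  unfold ww
  have : T' + 1 + k = (T' + k) + 1 := by omega
  rw [this, Rn_succ]
  ring

theorem uZ_le {n : ℕ} (hn : 1 ≤ n) : uZ n ≤ 1 / (3 * (n : ℝ)) :=
  (Pool.Agent.H9.QC.targetK0'.2 n hn).2

theorem ww_le (T' k : ℕ) : ww T' k ≤ T' / (3 * ((k : ℝ) + 1)) := by
  induction T' with
  | zero => simp [ww]
  | succ T' ih =>
    rw [ww_succ]
    have h1 := uZ_le (n := T' + k + 1) (by omega)
    have h2 : 1 / (3 * ((T' + k + 1 : ℕ) : ℝ)) ≤ 1 / (3 * ((k : ℝ) + 1)) := by
      apply one_div_le_one_div_of_le (by positivity)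
      push_cast
      have : (0 : ℝ) ≤ T' := by positivity
      linarith
    have h3 : ((T' + 1 : ℕ) : ℝ) / (3 * ((k : ℝ) + 1)) =
        T' / (3 * ((k : ℝ) + 1)) + 1 / (3 * ((k : ℝ) + 1)) := by
      push_cast; ring
    rw [h3]
    linarith

theorem ww_eq_sum (T' k : ℕ) : ww T' k = ∑ t ∈ Icc 1 T', uZ (k + t) := by
  induction T' with
  | zero => simp [ww]
  | succ T' ih =>
    rw [ww_succ, ih, Finset.sum_Icc_succ_top (by omega)]
    congr 2
    omega

theorem mul_uZ_le (n : ℕ) : (n : ℝ) * uZ n ≤ 1 / 3 := by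
  rcases Nat.eq_zero_or_pos n with rfl | hn
  · simp
  · have h := uZ_le hn
    have hpos : (0 : ℝ) < (n : ℝ) := by exact_mod_cast hn
    calc (n : ℝ) * uZ n ≤ (n : ℝ) * (1 / (3 * (n : ℝ))) := mul_le_mul_of_nonneg_left h hpos.le
      _ = 1 / 3 := by field_simp

theorem sum_ww_le (T' m : ℕ) : ∑ k ∈ range (m + 1), ww T' k ≤ ((T' : ℝ) + m) / 3 := by
  simp only [ww_eq_sum]
  rw [← Finset.sum_product']
  rw [← Finset.sum_fiberwise_of_maps_to (s := range (m + 1) ×ˢ Icc 1 T') (t := Icc 1 (T' + m))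
    (g := fun p => p.1 + p.2)]
  · have h1 : ∀ n ∈ Icc 1 (T' + m), ∑ p ∈ (range (m + 1) ×ˢ Icc 1 T').filter
        (fun p => p.1 + p.2 = n), uZ (p.1 + p.2) ≤ 1 / 3 := by
      intro n _
      have h2 : ∑ p ∈ (range (m + 1) ×ˢ Icc 1 T').filter (fun p => p.1 + p.2 = n),
          uZ (p.1 + p.2) = (((range (m + 1) ×ˢ Icc 1 T').filter
            (fun p => p.1 + p.2 = n)).card : ℝ) * uZ n := by
        rw [← nsmul_eq_mul, ← Finset.sum_const]
        apply Finset.sum_congr rfl
        intro p hp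
        rw [(Finset.mem_filter.1 hp).2]
      rw [h2]
      have h3 : ((range (m + 1) ×ˢ Icc 1 T').filter (fun p => p.1 + p.2 = n)).card ≤ n := by
        calc _ ≤ ((range n).image (fun k => (k, n - k))).card := by
              apply Finset.card_le_card
              rintro ⟨k, t⟩ hp
              rw [Finset.mem_filter, Finset.mem_product, Finset.mem_range, Finset.mem_Icc] at hp
              obtain ⟨⟨_, ht⟩, hkt⟩ := hp
              simp only at ht hkt
              rw [Finset.mem_image]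
              exact ⟨k, Finset.mem_range.2 (by omega), by ext <;> simp; omega⟩
          _ ≤ (range n).card := Finset.card_image_le
          _ = n := Finset.card_range n
      calc _ ≤ (n : ℝ) * uZ n := by
            apply mul_le_mul_of_nonneg_right _ (uZ_nonneg n)
            exact_mod_cast h3
        _ ≤ 1 / 3 := mul_uZ_le n
    calc _ ≤ ∑ n ∈ Icc 1 (T' + m), (1 / 3 : ℝ) := Finset.sum_le_sum h1
      _ = _ := by rw [Finset.sum_const, Nat.card_Icc, nsmul_eq_mul]; push_cast; ring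
  · rintro ⟨k, t⟩ hp
    rw [Finset.mem_product, Finset.mem_range, Finset.mem_Icc] at hp
    rw [Finset.mem_Icc]
    simp only at hp ⊢
    omega

theorem Ken_eq (s : ℝ) (T' m : ℕ) : Ken s T' m = ∑ p ∈ antidiagonal m, U s p.1 * ww T' p.2 := rfl

theorem Ken_nonneg {s : ℝ} (hs : 0 ≤ s) (T' m : ℕ) : 0 ≤ Ken s T' m :=
  Finset.sum_nonneg fun p _ => mul_nonneg (U_nonneg hs _) (ww_nonneg _ _)

/-- sum of the kernel -/
theorem sum_Ken_le {s : ℝ} (hs : 0 ≤ s) (T' T : ℕ) :
    ∑ m ∈ range (T + 1), Ken s T' m ≤ Phi s T * ∑ k ∈ range (T + 1), ww T' k := by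
  have h1 : ∀ m, Ken s T' m = ∑ l ∈ range (m + 1), U s l * ww T' (m - l) := by
    intro m
    rw [Ken_eq, Finset.Nat.sum_antidiagonal_eq_sum_range_succ_mk]
  simp only [h1]
  rw [Finset.sum_comm' (t' := range (T + 1)) (s' := fun l => Ico l (T + 1))
    (by intro x y; simp only [Finset.mem_range, Finset.mem_Ico]; omega)]
  rw [Phi, Finset.sum_mul]
  apply Finset.sum_le_sum
  intro l hl
  rw [← Finset.mul_sum]
  apply mul_le_mul_of_nonneg_left _ (U_nonneg hs l)
  rw [Finset.sum_Ico_eq_sum_range]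
  have h2 : ∀ k, l + k - l = k := by intro k; omega
  simp only [h2]
  apply Finset.sum_le_sum_of_subset_of_nonneg
  · intro k hk
    rw [Finset.mem_range] at hk ⊢
    omega
  · intro k _ _
    exact ww_nonneg _ _

theorem sum_Ken_Icc {s : ℝ} (hs : 0 ≤ s) (T' T : ℕ) :
    ∑ j ∈ Icc 1 T, Ken s T' (T - j) ≤ ∑ m ∈ range (T + 1), Ken s T' m := by
  rw [sum_Icc_one (fun j => Ken s T' (T - j)), Finset.sum_range_succ]
  have h1 : ∑ k ∈ range T, Ken s T' (T - (k + 1)) = ∑ k ∈ range T, Ken s T' k := by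
    rw [← Finset.sum_range_reflect (fun k => Ken s T' k) T]
    apply Finset.sum_congr rfl
    intro k hk
    congr 1
    omega
  rw [h1]
  linarith [Ken_nonneg hs T' T]

/-- the kernel at large times -/
theorem Ken_le {s : ℝ} (hs : 0 < s) (r T T' m : ℕ) (hD : s ≤ 1 - s * Rn T) (hT : 1 ≤ T)
    (hr : T' ≤ r * T) (hm : T ≤ 2 * m) (hmT : m ≤ T) :
    Ken s T' m ≤ ((16 * r + 2) / 9) / (1 - s * Rn T) := by
  set D := 1 - s * Rn T with hDdef
  have hD0 : 0 < D := lt_of_lt_of_le hs hD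
  have hm1 : 1 ≤ m := by omega
  have hmR : (0 : ℝ) < m := by exact_mod_cast hm1
  have hTR : (0 : ℝ) < T := by exact_mod_cast hT
  have hTm : (T : ℝ) ≤ 2 * m := by exact_mod_cast hm
  have hrR : (T' : ℝ) ≤ r * T := by exact_mod_cast hr
  have hr0 : (0 : ℝ) ≤ r := by positivity
  have hT'0 : (0 : ℝ) ≤ T' := by positivity
  rw [Ken_eq]
  have key : ∀ p ∈ antidiagonal m, U s p.1 * ww T' p.2 ≤
      (4 * r / 3) * U s p.1 + (2 * s / (3 * m * D ^ 2)) * ww T' p.2 := by
    rintro ⟨a, b⟩ hp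
    have hab : a + b = m := by simpa using hp
    simp only
    have hU := U_nonneg hs.le a
    have hw := ww_nonneg T' b
    by_cases h : 2 * a ≤ m
    · have h1 : ww T' b ≤ 4 * r / 3 := by
        refine (ww_le T' b).trans ?_
        have hb : (T : ℝ) ≤ 4 * ((b : ℝ) + 1) := by
          have : T ≤ 4 * (b + 1) := by omega
          exact_mod_cast this
        rw [div_le_div_iff₀ (by positivity) (by norm_num)]
        nlinarith
      have h2 : 0 ≤ (2 * s / (3 * m * D ^ 2)) * ww T' b := by positivity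
      nlinarith
    · have ha : 1 ≤ a := by omega
      have haR : (0 : ℝ) < a := by exact_mod_cast ha
      have h1 : (a : ℝ) * U s a ≤ s / (3 * D ^ 2) :=
        mul_U_le Pool.Agent.H9.QC.targetK0' hs.le hD0 (by omega)
      have h2 : (m : ℝ) ≤ 2 * a := by
        have : m ≤ 2 * a := by omega
        exact_mod_cast this
      have h3 : U s a ≤ 2 * s / (3 * m * D ^ 2) := by
        have h4 : (m : ℝ) * U s a ≤ 2 * (s / (3 * D ^ 2)) := by nlinarith
        calc U s a = ((m : ℝ) * U s a) / m := by field_simp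
          _ ≤ (2 * (s / (3 * D ^ 2))) / m := by gcongr
          _ = _ := by field_simp
      have h5 : U s a * ww T' b ≤ (2 * s / (3 * m * D ^ 2)) * ww T' b :=
        mul_le_mul_of_nonneg_right h3 hw
      have h6 : 0 ≤ (4 * r / 3) * U s a := by positivity
      linarith
  have h1 : ∑ p ∈ antidiagonal m, U s p.1 = Phi s m := by
    rw [Finset.Nat.sum_antidiagonal_eq_sum_range_succ_mk]; rfl
  have h2 : ∑ p ∈ antidiagonal m, ww T' p.2 = ∑ k ∈ range (m + 1), ww T' k := by
    rw [← Finset.Nat.sum_antidiagonal_swap]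
    simp only [Prod.snd_swap]
    rw [Finset.Nat.sum_antidiagonal_eq_sum_range_succ_mk]
  have hDm : D ≤ 1 - s * Rn m := D_anti hs.le hmT
  have hPhi : Phi s m ≤ 1 / D :=
    (Phi_le hs.le (lt_of_lt_of_le hD0 hDm)).trans (one_div_le_one_div_of_le hD0 hDm)
  have hsum := sum_ww_le T' m
  calc _ ≤ ∑ p ∈ antidiagonal m, ((4 * r / 3) * U s p.1 + (2 * s / (3 * m * D ^ 2)) * ww T' p.2) :=
        Finset.sum_le_sum key
    _ = (4 * r / 3) * Phi s m + (2 * s / (3 * m * D ^ 2)) * ∑ k ∈ range (m + 1), ww T' k := by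
        rw [Finset.sum_add_distrib, ← Finset.mul_sum, ← Finset.mul_sum, h1, h2]
    _ ≤ (4 * r / 3) * (1 / D) + (2 * s / (3 * m * D ^ 2)) * (((T' : ℝ) + m) / 3) := by
        gcongr
    _ ≤ (4 * r / 3) * (1 / D) + (2 * (2 * r + 1) / 9) / D := by
        have h3 : (T' : ℝ) + m ≤ (2 * r + 1) * m := by nlinarith
        have h4 : (2 * s / (3 * m * D ^ 2)) * (((T' : ℝ) + m) / 3) ≤
            (2 * s / (3 * m * D ^ 2)) * (((2 * r + 1) * m) / 3) := by gcongr
        have h5 : (2 * s / (3 * m * D ^ 2)) * (((2 * r + 1) * m) / 3) =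
            (2 * (2 * r + 1) / 9) * (s / D ^ 2) := by field_simp; ring
        have h6 : s / D ^ 2 ≤ 1 / D := by
          rw [div_le_div_iff₀ (by positivity) hD0]
          nlinarith
        have h7 : (2 * (2 * r + 1) / 9) * (s / D ^ 2) ≤ (2 * (2 * r + 1) / 9) * (1 / D) := by
          gcongr
        have h8 : (2 * (2 * (r : ℝ) + 1) / 9) * (1 / D) = (2 * (2 * r + 1) / 9) / D := by ring
        linarith
    _ = _ := by ring

theorem targetE3 : TargetE3 := by
  intro r
  refine ⟨2 * (r + 1), by positivity, ?_⟩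
  intro s T T' v hs hD hT hr hv
  set D := 1 - s * Rn T with hDdef
  have hD0 : 0 < D := lt_of_lt_of_le hs hD
  have hTR : (0 : ℝ) < T := by exact_mod_cast hT
  have hr0 : (0 : ℝ) ≤ r := by positivity
  have hrR : (T' : ℝ) ≤ r * T := by exact_mod_cast hr
  have key : ∀ j ∈ Icc 1 T, Ken s T' (T - j) * v j ≤
      (((16 * r + 2) / 9) / D) * v j + (2 / (3 * T)) * Ken s T' (T - j) := by
    intro j hj
    rw [Finset.mem_Icc] at hj
    obtain ⟨hv0, hv1⟩ := hv j hj.1 hj.2
    have hK := Ken_nonneg hs.le T' (T - j)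
    by_cases h : 2 * j ≤ T
    · have h1 := Ken_le hs r T T' (T - j) hD hT hr (by omega) (by omega)
      have h2 : Ken s T' (T - j) * v j ≤ (((16 * r + 2) / 9) / D) * v j :=
        mul_le_mul_of_nonneg_right h1 hv0
      have h3 : 0 ≤ (2 / (3 * (T : ℝ))) * Ken s T' (T - j) := by positivity
      linarith
    · have hj0 : (0 : ℝ) < j := by exact_mod_cast hj.1
      have h1 : v j ≤ 2 / (3 * T) := by
        refine (hv1.trans (uZ_le hj.1)).trans ?_
        rw [div_le_div_iff₀ (by positivity) (by positivity)]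
        have : (T : ℝ) ≤ 2 * j := by
          have : T ≤ 2 * j := by omega
          exact_mod_cast this
        linarith
      have h2 : Ken s T' (T - j) * v j ≤ (2 / (3 * T)) * Ken s T' (T - j) := by
        rw [mul_comm]
        exact mul_le_mul_of_nonneg_right h1 hK
      have h3 : 0 ≤ (((16 * (r : ℝ) + 2) / 9) / D) * v j := by positivity
      linarith
  have hV : 0 ≤ ∑ j ∈ Icc 1 T, v j := Finset.sum_nonneg fun j hj => by
    rw [Finset.mem_Icc] at hj
    exact (hv j hj.1 hj.2).1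
  have hPhi : Phi s T ≤ 1 / D := Phi_le hs.le hD0
  have hsum := sum_ww_le T' T
  have hPhi0 := Phi_nonneg hs.le T
  have h1 : ∑ j ∈ Icc 1 T, Ken s T' (T - j) ≤ (1 / D) * (((r + 1) * T) / 3) := by
    refine (sum_Ken_Icc hs.le T' T).trans ((sum_Ken_le hs.le T' T).trans ?_)
    have hw : 0 ≤ ∑ k ∈ range (T + 1), ww T' k := Finset.sum_nonneg fun k _ => ww_nonneg _ _
    have h2 : ∑ k ∈ range (T + 1), ww T' k ≤ ((r + 1) * T) / 3 := by
      refine hsum.trans ?_
      have : (T' : ℝ) + T ≤ (r + 1) * T := by linarith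
      linarith
    gcongr
  have h2 : ∑ j ∈ Icc 1 T, Ken s T' (T - j) * v j ≤
      (((16 * r + 2) / 9) / D) * ∑ j ∈ Icc 1 T, v j + (2 / (3 * T)) *
        ((1 / D) * (((r + 1) * T) / 3)) := by
    refine (Finset.sum_le_sum key).trans ?_
    rw [Finset.sum_add_distrib, ← Finset.mul_sum, ← Finset.mul_sum]
    have : 0 ≤ 2 / (3 * (T : ℝ)) := by positivity
    have := mul_le_mul_of_nonneg_left h1 this
    linarith
  have h3 : (2 / (3 * (T : ℝ))) * ((1 / D) * (((r + 1) * T) / 3)) = (2 * (r + 1) / 9) / D := by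
    field_simp; ring
  rw [h3] at h2
  calc s * ∑ j ∈ Icc 1 T, Ken s T' (T - j) * v j
      ≤ s * ((((16 * r + 2) / 9) / D) * ∑ j ∈ Icc 1 T, v j + (2 * (r + 1) / 9) / D) :=
        mul_le_mul_of_nonneg_left h2 hs.le
    _ = (s / D) * (((16 * r + 2) / 9) * ∑ j ∈ Icc 1 T, v j + (2 * (r + 1) / 9)) := by ring
    _ ≤ (s / D) * ((2 * (r + 1)) * (1 + ∑ j ∈ Icc 1 T, v j)) := by
        apply mul_le_mul_of_nonneg_left _ (by positivity)
        nlinarith
    _ = _ := by ring

end Pool.Agent.H77.QC
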